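import Pool.Agent.H13.LK.Stmts

/-!
# Rows WINL and CNDL: labels from the windows and from additional side information
-/

set_option autoImplicit false

namespace Pool.LK

open Finset Real
open Pool.Agent.H49.Ent Pool.Agent.H32.Dense Pool.STK Pool.KA Pool.KSAT Pool.K2S

variable {m J : ℕ}

/-- **Row CNDL.** From additional side information. -/
theorem cndl_thm : CNDLStmt := by
  intro m b J F κ z B
  refine ⟨⟨B.k, B.M, B.le, B.bd, B.inv⟩, ?_⟩
  have h := CH_le_add F.isLaw.1 B.lab z F.Z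
  have e1 : Lbl.cost (F := F) (b := b) ⟨B.k, B.M, B.le, B.bd, B.inv⟩ =
      CH F.p B.lab F.Z + (∑ ω, F.p ω * ∑ i, ((J : ℝ) - B.k ω i)) * Real.log 2 := rfl
  have e2 : B.cost = CH F.p B.lab (fun ω => (z ω, F.Z ω)) +
      (∑ ω, F.p ω * ∑ i, ((J : ℝ) - B.k ω i)) * Real.log 2 := rfl
  rw [e1, e2]
  linarith

/-- The scaled coordinates of the position at time zero, from those in the window. -/
theorem mco_win (F : Fam m J) (g : ℕ) (M : Fin m → Fin m → ℝ) (ω : F.Ω) (i : Fin m) :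
    mco M (F.u ω) i = (∑ j, M i j * (fl g (F.x1 g ω) j : ℝ)) / 2 ^ g +
      mco M (fun j => Int.fract (2 ^ g * F.x1 g ω j)) i / 2 ^ g -
      (F.T1 g ω : ℝ) / 2 ^ g * mco M (F.d ω) i := by
  unfold mco
  rw [Finset.sum_div, Finset.sum_div, Finset.mul_sum, ← Finset.sum_add_distrib,
    ← Finset.sum_sub_distrib]
  refine Finset.sum_congr rfl fun j _ => ?_
  have h1 : (2 : ℝ) ^ g * F.x1 g ω j = (fl g (F.x1 g ω) j : ℝ) +
      Int.fract (2 ^ g * F.x1 g ω j) := (Int.floor_add_fract _).symm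
  have h2 : F.x1 g ω j = F.u ω j + (F.T1 g ω : ℝ) / 2 ^ g * F.d ω j := rfl
  have h3 : F.u ω j = (2 ^ g * F.x1 g ω j) / 2 ^ g - (F.T1 g ω : ℝ) / 2 ^ g * F.d ω j := by
    rw [mul_div_cancel_left₀ _ (by positivity : (2 : ℝ) ^ g ≠ 0), h2]
    ring
  rw [h3, h1]
  ring

/-- **Row WINL.** From the windows. -/
theorem winl_thm : WINLStmt := by
  intro m b
  refine ⟨m * Real.log 7, by positivity, ?_⟩
  intro J g hg F B
  obtain ⟨B', hB'⟩ : ∃ B' : Lbl F b, B' = ⟨B.k, B.M, fun ω i => (B.le ω i).trans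
      (Nat.sub_le _ _), B.bd, B.inv⟩ := ⟨_, rfl⟩
  refine ⟨B', ?_⟩
  have hp := F.isLaw.1
  have hk : B'.k = B.k := by rw [hB']
  have hM : B'.M = B.M := by rw [hB']
  -- the position
  have hpos : CH F.p (fun ω => flk (B.k ω) (mco (B.M ω) (F.u ω)))
      (fun ω => (B.lab ω, F.c g ω)) ≤ m * Real.log 7 := by
    have h1 := CH_le_vec hp F.isLaw.2 (fun ω => flk (B.k ω) (mco (B.M ω) (F.u ω)))
      (fun ω => (B.lab ω, F.c g ω)) (fun _ => 3) (by
        intro ω ω' _ _ h i
        rw [Prod.mk.injEq] at h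
        obtain ⟨hl, hc⟩ := h
        have hl' : ((B.k ω, B.M ω), (flk (B.k ω) (mco (B.M ω) ((F.win g).u ω)),
            flk (B.k ω) (mco (B.M ω) (F.d ω)))) =
            ((B.k ω', B.M ω'), (flk (B.k ω') (mco (B.M ω') ((F.win g).u ω')),
            flk (B.k ω') (mco (B.M ω') (F.d ω')))) := hl
        have hc' : ((F.T1 g ω, fl g (F.x1 g ω)), F.Z ω) =
            ((F.T1 g ω', fl g (F.x1 g ω')), F.Z ω') := hc
        simp only [Prod.mk.injEq] at hl' hc'
        obtain ⟨⟨a1, a2⟩, a3, a4⟩ := hl'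
        obtain ⟨⟨b1, b2⟩, -⟩ := hc'
        rw [a1, a2] at a3 a4
        have c3 := congrFun a3 i
        have c4 := congrFun a4 i
        have f3 : |(2 : ℝ) ^ B.k ω' i * mco (B.M ω') ((F.win g).u ω) i -
            2 ^ B.k ω' i * mco (B.M ω') ((F.win g).u ω') i| < 1 :=
          Int.abs_sub_lt_one_of_floor_eq_floor c3
        have f4 : |(2 : ℝ) ^ B.k ω' i * mco (B.M ω') (F.d ω) i -
            2 ^ B.k ω' i * mco (B.M ω') (F.d ω') i| < 1 :=
          Int.abs_sub_lt_one_of_floor_eq_floor c4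
        have g1 := mco_win F g (B.M ω') ω i
        have g2 := mco_win F g (B.M ω') ω' i
        rw [b1, b2] at g1
        obtain ⟨E, hE⟩ : ∃ E : ℝ, E = (2 : ℝ) ^ B.k ω' i := ⟨_, rfl⟩
        obtain ⟨a, ha⟩ : ∃ a, a = mco (B.M ω') ((F.win g).u ω) i := ⟨_, rfl⟩
        obtain ⟨a', ha'⟩ : ∃ a, a = mco (B.M ω') ((F.win g).u ω') i := ⟨_, rfl⟩
        obtain ⟨d, hd⟩ : ∃ a, a = mco (B.M ω') (F.d ω) i := ⟨_, rfl⟩
        obtain ⟨d', hd'⟩ : ∃ a, a = mco (B.M ω') (F.d ω') i := ⟨_, rfl⟩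
        obtain ⟨t, ht⟩ : ∃ t : ℝ, t = (F.T1 g ω' : ℝ) / 2 ^ g := ⟨_, rfl⟩
        have ga : mco (B.M ω') (fun j => Int.fract (2 ^ g * F.x1 g ω j)) i = a := ha.symm
        have ga' : mco (B.M ω') (fun j => Int.fract (2 ^ g * F.x1 g ω' j)) i = a' := ha'.symm
        rw [ga, ← ht, ← hd] at g1
        rw [ga', ← ht, ← hd'] at g2
        rw [← hE, ← ha, ← ha'] at f3
        rw [← hE, ← hd, ← hd'] at f4
        have ht0 : 0 ≤ t := by rw [ht]; positivity
        have ht1 : t ≤ 1 := by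
          rw [ht, div_le_one (by positivity)]
          have h2 : F.T1 g ω' < 2 ^ g := by
            unfold Fam.T1
            rw [Nat.div_lt_iff_lt_mul (by positivity), ← pow_add]
            have e : g + (J - g) = J := Nat.add_sub_cancel' hg
            rw [e]
            exact F.tim ω'
          exact_mod_cast h2.le
        have hG : (1 : ℝ) ≤ 2 ^ g := one_le_pow₀ (by norm_num)
        have key : |E * mco (B.M ω') (F.u ω) i - E * mco (B.M ω') (F.u ω') i| ≤ 2 := by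
          rw [g1, g2]
          have e1 : E * ((∑ j, B.M ω' i j * (fl g (F.x1 g ω') j : ℝ)) / 2 ^ g + a / 2 ^ g -
              t * d) - E * ((∑ j, B.M ω' i j * (fl g (F.x1 g ω') j : ℝ)) / 2 ^ g +
              a' / 2 ^ g - t * d') = (E * a - E * a') / 2 ^ g - t * (E * d - E * d') := by ring
          rw [e1]
          have e2 : |(E * a - E * a') / 2 ^ g| ≤ 1 := by
            rw [abs_div, abs_of_pos (by positivity : (0 : ℝ) < 2 ^ g), div_le_one (by positivity)]
            exact f3.le.trans hG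
          have e3 : |t * (E * d - E * d')| ≤ 1 := by
            rw [abs_mul, abs_of_nonneg ht0]
            calc t * |E * d - E * d'| ≤ 1 * 1 :=
                  mul_le_mul ht1 f4.le (abs_nonneg _) zero_le_one
              _ = 1 := one_mul 1
          calc |(E * a - E * a') / 2 ^ g - t * (E * d - E * d')| ≤
                |(E * a - E * a') / 2 ^ g| + |t * (E * d - E * d')| := abs_sub _ _
            _ ≤ 2 := by linarith
        show |((flk (B.k ω) (mco (B.M ω) (F.u ω)) i - flk (B.k ω') (mco (B.M ω') (F.u ω')) i : ℤ)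
          : ℝ)| ≤ 3
        rw [a1, a2]
        have h5 := floor_sub_le_pair (2 ^ B.k ω' i * mco (B.M ω') (F.u ω) i)
          (2 ^ B.k ω' i * mco (B.M ω') (F.u ω') i)
        rw [← hE] at h5
        have h6 : |((flk (B.k ω') (mco (B.M ω') (F.u ω)) i -
            flk (B.k ω') (mco (B.M ω') (F.u ω')) i : ℤ) : ℝ)| =
            |((⌊E * mco (B.M ω') (F.u ω) i⌋ - ⌊E * mco (B.M ω') (F.u ω') i⌋ : ℤ) : ℝ)| := by
          rw [hE]
          rfl
        rw [h6]
        linarith)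
    refine h1.trans (le_of_eq ?_)
    rw [Ex_const F.isLaw.2]
    norm_num
  -- the entropy of the label
  have hlab : CH F.p B'.lab F.Z ≤ CH F.p (F.c g) F.Z + CH F.p B.lab (F.c g) + m * Real.log 7 := by
    have h1 := CH_le_add hp B'.lab (F.c g) F.Z
    have h2 : CH F.p B'.lab (fun ω => (F.c g ω, F.Z ω)) ≤ CH F.p B'.lab (F.c g) :=
      CH_mono_cond hp fun ω ω' _ _ h => by
        rw [Prod.mk.injEq] at h
        exact h.1
    have h3 : CH F.p B'.lab (F.c g) ≤ CH F.p (fun ω =>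
        (flk (B.k ω) (mco (B.M ω) (F.u ω)), B.lab ω)) (F.c g) := by
      refine CH_mono_left hp fun ω ω' _ _ h => ?_
      simp only [Prod.mk.injEq] at h
      obtain ⟨⟨a1, a2⟩, -⟩ := h
      have a3 : ((B.k ω, B.M ω), (flk (B.k ω) (mco (B.M ω) ((F.win g).u ω)),
            flk (B.k ω) (mco (B.M ω) (F.d ω)))) =
            ((B.k ω', B.M ω'), (flk (B.k ω') (mco (B.M ω') ((F.win g).u ω')),
            flk (B.k ω') (mco (B.M ω') (F.d ω')))) := a2
      simp only [Prod.mk.injEq] at a3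
      show ((B'.k ω, B'.M ω), (flk (B'.k ω) (mco (B'.M ω) (F.u ω)),
            flk (B'.k ω) (mco (B'.M ω) (F.d ω)))) =
            ((B'.k ω', B'.M ω'), (flk (B'.k ω') (mco (B'.M ω') (F.u ω')),
            flk (B'.k ω') (mco (B'.M ω') (F.d ω'))))
      rw [hk, hM]
      simp only [Prod.mk.injEq]
      exact ⟨a3.1, a1, a3.2.2⟩
    rw [CH_chain hp (fun ω => flk (B.k ω) (mco (B.M ω) (F.u ω))) B.lab (F.c g)] at h3
    linarith
  have hcost : B'.cost = CH F.p B'.lab F.Z +
      (∑ ω, F.p ω * ∑ i, ((J : ℝ) - B.k ω i)) * Real.log 2 := by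
    rw [hB']
    rfl
  have hcostw : B.cost = CH F.p B.lab (F.c g) +
      (∑ ω, F.p ω * ∑ i, (((J - g : ℕ) : ℝ) - B.k ω i)) * Real.log 2 := rfl
  have hsum : ∑ ω, F.p ω * ∑ i, ((J : ℝ) - B.k ω i) =
      ∑ ω, F.p ω * ∑ i, (((J - g : ℕ) : ℝ) - B.k ω i) + m * g := by
    have h1 : ∀ ω, F.p ω * ∑ i, ((J : ℝ) - B.k ω i) =
        F.p ω * ∑ i, (((J - g : ℕ) : ℝ) - B.k ω i) + F.p ω * (m * g) := by
      intro ω
      rw [← mul_add]
      congr 1
      rw [Nat.cast_sub hg]
      simp only [Finset.sum_sub_distrib, Finset.sum_const, Finset.card_univ, Fintype.card_fin,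
        nsmul_eq_mul]
      ring
    rw [Finset.sum_congr rfl fun ω _ => h1 ω, Finset.sum_add_distrib, ← Finset.sum_mul,
      F.isLaw.2, one_mul]
  rw [hcost, hcostw, hsum]
  have hlog : Real.log 2 ≤ Real.log 7 := Real.log_le_log (by norm_num) (by norm_num)
  have h8 : (m : ℝ) * g * Real.log 2 ≤ m * g * Real.log 7 :=
    mul_le_mul_of_nonneg_left hlog (by positivity)
  linarith

end Pool.LK
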