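import Pool.Agent.H34.LK.WINL
import Pool.Agent.H12.KA.WI2
import Pool.Agent.H20.K2.AOP

/-!
# Row WCL: windows preserve maximality, at linear cost
-/

set_option autoImplicit false

namespace Pool.LK

open Finset Real
open Pool.Agent.H49.Ent Pool.Agent.H32.Dense Pool.STK Pool.KA Pool.KSAT Pool.K2S

variable {m J : ℕ}

/-- **(WCL)** Windows preserve maximality, at linear cost. -/
def WCLStmt : Prop :=
  ∀ (m : ℕ) (b a R : ℝ), 1 ≤ b → 1 ≤ a → 0 < R → ∃ C : ℝ, 0 ≤ C ∧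
    ∀ (J : ℕ) (F : Fam m J) (τ x : ℝ), 1 ≤ J → 0 ≤ τ → 0 ≤ x → x ≤ 1 / 4 → 1 ≤ τ * J →
      Mxl F b a R τ → ∀ g : ℕ, g ≤ J → (g : ℝ) ≤ x * J → Mxl (F.win g) b a R (C * (τ + x))

/-- The entropy of the window: the digits of the time, and the position. -/
theorem c_le (F : Fam m J) {g : ℕ} (hg : g ≤ J) {e : ℝ} (he : F.Tm e) :
    CH F.p (F.c g) F.Z ≤ g * Real.log 2 + CH F.p (fun ω => fl g (F.x1 g ω)) F.W + e := by
  have hp := F.isLaw.nonneg
  obtain ⟨κ, hκ⟩ : ∃ κ : F.Ω → Fin m → ℤ, κ = fun ω => fl g (F.x1 g ω) := ⟨_, rfl⟩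
  rw [← hκ]
  have hT1 : ∀ {S : Type} (W : F.Ω → S), CH F.p (F.T1 g) W ≤ g * Real.log 2 := by
    intro S W
    have h := CH_le_card hp F.isLaw.sum_one (F.T1 g) W
      (fun _ => Finset.range (2 ^ g)) (fun ω _ => Finset.mem_range.mpr (Win.T1_lt F g hg ω))
    rw [Ex_const F.isLaw.sum_one, Finset.card_range] at h
    push_cast at h
    rw [Real.log_pow] at h
    exact h
  have h1 : CH F.p (F.c g) F.Z ≤ CH F.p (fun ω => (κ ω, F.T1 g ω)) F.Z := by
    refine CH_mono_left hp fun ω ω' _ _ h => ?_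
    simp only [Prod.mk.injEq] at h
    have e1 : fl g (F.x1 g ω) = fl g (F.x1 g ω') := by
      have := h.1.1
      rw [hκ] at this
      exact this
    show ((F.T1 g ω, fl g (F.x1 g ω)), F.Z ω) = ((F.T1 g ω', fl g (F.x1 g ω')), F.Z ω')
    rw [e1, h.1.2, h.2]
  rw [CH_chain hp κ (F.T1 g) F.Z] at h1
  have h2 := hT1 F.Z
  have h3 := Win.CH_bayes hp κ F.T (fun ω => (F.T1 g ω, F.Z ω))
  have h4 : CH F.p F.T (fun ω => (F.T1 g ω, F.Z ω)) ≤ ((J : ℝ) - g) * Real.log 2 := by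
    have h := CH_le_card hp F.isLaw.sum_one F.T (fun ω => (F.T1 g ω, F.Z ω))
      (fun c => (Finset.range (2 ^ (J - g))).image (fun r => 2 ^ (J - g) * c.1 + r))
      (by
        intro ω _
        rw [Finset.mem_image]
        exact ⟨F.T ω % 2 ^ (J - g), Finset.mem_range.mpr (Nat.mod_lt _ (by positivity)),
          Win.T_split F g ω⟩)
    refine h.trans ?_
    have h5 : ∀ ω, Real.log (((Finset.range (2 ^ (J - g))).image
        (fun r => 2 ^ (J - g) * F.T1 g ω + r)).card : ℝ) ≤ ((J : ℝ) - g) * Real.log 2 := by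
      intro ω
      have h6 : ((Finset.range (2 ^ (J - g))).image
          (fun r => 2 ^ (J - g) * F.T1 g ω + r)).card = 2 ^ (J - g) := by
        rw [Finset.card_image_of_injective _ (fun a b h => Nat.add_left_cancel h),
          Finset.card_range]
      rw [h6]
      push_cast
      rw [Real.log_pow, Nat.cast_sub hg]
    refine (Ex_mono hp (g := fun _ => ((J : ℝ) - g) * Real.log 2) fun ω _ => h5 ω).trans ?_
    rw [Ex_const F.isLaw.sum_one]
  have h5 := CH_le_add hp F.T (F.T1 g) (fun ω => (F.l ω, F.Z ω))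
  have h6 := hT1 (fun ω => (F.l ω, F.Z ω))
  have h7 : CH F.p F.T (fun ω => (F.T1 g ω, (F.l ω, F.Z ω))) ≤
      CH F.p F.T (fun ω => (κ ω, (F.T1 g ω, F.Z ω))) := by
    refine CH_mono_cond hp fun ω ω' ho ho' h => ?_
    simp only [Fam.l, Prod.mk.injEq] at h
    obtain ⟨hT, ⟨hu, hd⟩, hZ⟩ := h
    have hx := Win.x1_det F g hu hd hT
    simp only [Prod.mk.injEq]
    refine ⟨?_, hT, hZ⟩
    rw [hκ]
    show fl g (F.x1 g ω) = fl g (F.x1 g ω')
    rw [hx]
  have h8 : CH F.p κ (fun ω => (F.T ω, (F.T1 g ω, F.Z ω))) ≤ CH F.p κ F.W := by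
    refine CH_mono_cond hp fun ω ω' _ _ h => ?_
    simp only [Prod.mk.injEq] at h
    show (F.T ω, F.Z ω) = (F.T ω', F.Z ω')
    rw [h.1, h.2.2]
  unfold Fam.Tm at he
  have e0 : ((J : ℝ) - g) * Real.log 2 = J * Real.log 2 - g * Real.log 2 := by ring
  rw [e0] at h4
  linarith

/-- **Row WCL.** -/
theorem wcl_thm : WCLStmt := by
  intro m b a R hb ha hR
  obtain ⟨C₁, hC₁, hW⟩ := wi2_thm m
  obtain ⟨C₂, hC₂, hL⟩ := winl_thm m b
  obtain ⟨C₃, -, hO⟩ := aop_thm m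
  have hl2 : 0 < Real.log 2 := Real.log_pos (by norm_num)
  obtain ⟨K, hK⟩ : ∃ K : ℝ, K = 2 + Real.log 2 + 2 * C₂ + a * C₁ := ⟨_, rfl⟩
  have hK0 : 2 ≤ K := by
    rw [hK]
    have : 0 ≤ a * C₁ := by positivity
    linarith
  refine ⟨2 * K, by positivity, ?_⟩
  intro J F τ x hJ hτ hx hx4 hτJ hF g hg hgx
  obtain ⟨hTm, hGge⟩ := hF
  have hp := F.isLaw.nonneg
  have hJ0 : (1 : ℝ) ≤ J := by exact_mod_cast hJ
  have hg0 : (0 : ℝ) ≤ g := Nat.cast_nonneg g
  have hJg : ((J - g : ℕ) : ℝ) = J - g := by rw [Nat.cast_sub hg]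
  have h34 : (3 : ℝ) / 4 * J ≤ ((J - g : ℕ) : ℝ) := by
    rw [hJg]
    nlinarith
  have hfin : K * ((τ + x) * J) ≤ 2 * K * (τ + x) * ((J - g : ℕ) : ℝ) := by
    have h1 : (τ + x) * (3 / 4 * J) ≤ (τ + x) * ((J - g : ℕ) : ℝ) :=
      mul_le_mul_of_nonneg_left h34 (by linarith)
    have h2 : K * ((τ + x) * (3 / 4 * J)) ≤ K * ((τ + x) * ((J - g : ℕ) : ℝ)) :=
      mul_le_mul_of_nonneg_left h1 (by linarith)
    have h3 : 0 ≤ K * ((τ + x) * J) := by positivity
    linarith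
  refine ⟨?_, ?_⟩
  · have h1 := (win_thm m J F g hg).1 _ hTm
    have h2 : τ * J ≤ 2 * K * (τ + x) * ((J - g : ℕ) : ℝ) := by
      refine le_trans ?_ hfin
      have h3 : 1 * ((τ + x) * J) ≤ K * ((τ + x) * J) :=
        mul_le_mul_of_nonneg_right (by linarith) (by positivity)
      have h4 : 0 ≤ x * J := by positivity
      linarith
    unfold Fam.Tm at h1 ⊢
    linarith
  · intro B
    obtain ⟨B', hB'⟩ := hL J g hg F B
    have h1 := hGge B'
    have h2 := c_le F hg hTm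
    obtain ⟨κ, hκ⟩ : ∃ κ : F.Ω → Fin m → ℤ, κ = fun ω => fl g (F.x1 g ω) := ⟨_, rfl⟩
    rw [← hκ] at h2
    -- the entropy of the position
    have h3 := Win.CH_bayes hp (F.X J) κ F.W
    have h4 : CH F.p κ (fun ω => (F.X J ω, F.W ω)) ≤ C₁ := by
      have e1 : CH F.p κ (fun ω => (F.X J ω, F.W ω)) ≤ CH F.p κ (fun ω => (F.X g ω, F.W ω)) := by
        refine CH_mono_cond hp fun ω ω' _ _ h => ?_
        simp only [Prod.mk.injEq] at h ⊢
        exact ⟨Pool.STK.B58.fl_fine hg h.1, h.2⟩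
      have e2 := (hW J F g hg _ κ).1
      have e3 : CH F.p κ (fun ω => (F.T ω, F.c g ω)) = 0 := by
        refine CH_eq_zero hp fun ω ω' _ _ h => ?_
        rw [hκ]
        simp only [Fam.c, Prod.mk.injEq] at h
        exact h.2.1.2
      rw [e3, abs_le] at e2
      linarith [e2.1]
    have h5 : CH F.p (F.X J) (fun ω => (F.T ω, F.c g ω)) ≤
        CH F.p (F.X J) (fun ω => (κ ω, F.W ω)) := by
      refine CH_mono_cond hp fun ω ω' _ _ h => ?_
      simp only [Fam.c, Prod.mk.injEq] at h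
      rw [hκ]
      show (fl g (F.x1 g ω), (F.T ω, F.Z ω)) = (fl g (F.x1 g ω'), (F.T ω', F.Z ω'))
      rw [h.2.1.2, h.1, h.2.2]
    have h6 : CH (F.win g).p ((F.win g).X (J - g)) (F.win g).W =
        CH F.p (F.X J) (fun ω => (F.T ω, F.c g ω)) := by
      have e1 := (hO J F 1 zero_le_one).2.1 g hg
      unfold Fam.Ga at e1
      have e2 : CH (F.win g).p ((F.win g).D (J - g)) (F.win g).Z =
        CH F.p (F.D (J - g)) (F.c g) := rfl
      rw [e2] at e1
      linarith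
    have n1 : 0 ≤ CH F.p κ F.W := CH_nonneg hp _ _
    have n2 : CH F.p κ F.W ≤ a * CH F.p κ F.W := le_mul_of_one_le_left n1 ha
    have h7 : a * (CH F.p κ F.W + CH (F.win g).p ((F.win g).X (J - g)) (F.win g).W - C₁) ≤
        a * CH F.p (F.X J) F.W := by
      refine mul_le_mul_of_nonneg_left ?_ (by linarith)
      rw [h6]
      linarith
    have k1 : a * C₁ ≤ a * C₁ * (τ * J) := le_mul_of_one_le_right (by positivity) hτJ
    have k2 : C₂ ≤ C₂ * (τ * J) := le_mul_of_one_le_right hC₂ hτJ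
    have k3 : C₂ * g ≤ C₂ * (x * J) := mul_le_mul_of_nonneg_left hgx hC₂
    have k4 : g * Real.log 2 ≤ x * J * Real.log 2 := mul_le_mul_of_nonneg_right hgx hl2.le
    have k5 : 0 ≤ a * C₁ * (x * J) := by positivity
    have k6 : 0 ≤ Real.log 2 * (τ * J) := by positivity
    have k7 : 0 ≤ x * J := by positivity
    have k8 : R * ((J - g : ℕ) : ℝ) ≤ R * J := by
      rw [hJg]
      have : 0 ≤ R * g := by positivity
      linarith
    have k9 : 0 ≤ C₂ * (τ * J) := by positivity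
    have k10 : 0 ≤ C₂ * (x * J) := by positivity
    have e1 : K * ((τ + x) * J) = 2 * (τ * J) + 2 * (x * J) + Real.log 2 * (τ * J) +
        x * J * Real.log 2 + 2 * (C₂ * (τ * J)) + 2 * (C₂ * (x * J)) + a * C₁ * (τ * J) +
        a * C₁ * (x * J) := by
      rw [hK]
      ring
    rw [e1] at hfin
    linarith

end Pool.LK
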